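import Mathlib
import Pool.Agent.Lib.helper13.CptD

set_option autoImplicit false

open Set TopologicalSpace

namespace Pool.Agent.Results.MP_37cedb_gt.ZmZ

theorem result (G : Type) [Group G] [TopologicalSpace G] [IsTopologicalGroup G] [T2Space G]
    [CountablyCompactSpace G]
    (minimal : ∀ (H : Type) [Group H] [TopologicalSpace H] [IsTopologicalGroup H] [T2Space H]
      (f : G ≃* H), Continuous f → Continuous f.symm)
    (propZm : ∀ L : Subgroup G, IsClosed (L : Set G) →
      IsTopologicalBasis {U : Set L | IsClopen U} → MetrizableSpace L → DiscreteTopology L) :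
    ∀ L : Subgroup G, IsClosed (L : Set G) →
      IsTopologicalBasis {U : Set L | IsClopen U} → DiscreteTopology L :=
  have := (Lib.helper13.CptD.main Lib.helper13.CptD.cc_pc minimal propZm).2.1
  fun L a b => propZm L a b Topology.IsEmbedding.subtypeVal.metrizableSpace

end Pool.Agent.Results.MP_37cedb_gt.ZmZ
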